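import Pool.Agent.H699.T.Bnd

/-!
# Correctness of the bounded algorithm
-/

set_option autoImplicit false

namespace Pool.Agent.H17.T.CORR

open Finset Classical
open Pool.Agent.H699.T

/-- Final arithmetic. -/
theorem arith (T W0 WX WZ WP e x z : ℝ) (he : 0 ≤ e) (h0 : 0 ≤ W0) (hP : 0 ≤ WP)
    (h1 : W0 ≤ T) (h2 : T ≤ 2 * W0 + e - WP / 10)
    (h3 : |x - W0| ≤ e) (h3' : |z - WZ| ≤ e) (h4 : W0 ≤ WX + e) (h5 : WZ ≤ 7 * WP + e)
    (h6 : 2 * (WX - WZ) ≤ 3 / 2 * T + e) :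
    T ≤ outv e x z ∧ outv e x z ≤ (2 - 1 / 560) * T + 16 * e := by
  rw [abs_le] at h3 h3'
  obtain ⟨h3a, h3b⟩ := h3
  obtain ⟨h3c, h3d⟩ := h3'
  unfold outv
  split_ifs with h
  · constructor <;> linarith
  · push Not at h
    constructor <;> linarith

/-- The weight of the vertices outside the good units. -/
theorem weights (hUSB : S_USB) (N k M Kp : ℕ) (s : US N) (hs : s.Ok k M Kp)
    (c1 c2 : Fin N → ℕ) (Δ2 Q : ℕ) (χ : Fin N → Fin Q) :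
    ∑ v ∈ s.V0, s.w v ≤ ∑ v ∈ s.XX c1 c2 Δ2 χ, s.w v + (
      (univ.filter fun l => s.anch (fun y => min (c1 y) (c2 y)) l).card * (k * M) +
      (univ.filter fun l => (s.un l).Nonempty ∧ ¬ s.anch (fun y => min (c1 y) (c2 y)) l ∧
          ¬ s.light c1 c2 Δ2 l).card * (k * M) +
      (univ.filter fun l => s.light c1 c2 Δ2 l ∧ s.conf c1 c2 Δ2 χ l).card * (k * M)) := by
  obtain ⟨-, -, -, -, hU5, -, -, hU8⟩ := hUSB N s k M Kp hs
  have hV : s.VA univ = s.V0 := by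
    unfold US.VA
    ext v
    simp
  have e1 := hU8 univ s.w
  rw [hV] at e1
  have e2 := hU8 univ (fun v => if v ∈ s.XX c1 c2 Δ2 χ then s.w v else 0)
  rw [hV] at e2
  have e3 : ∑ v ∈ s.V0, (if v ∈ s.XX c1 c2 Δ2 χ then s.w v else 0) =
      ∑ v ∈ s.XX c1 c2 Δ2 χ, s.w v := by
    rw [← Finset.sum_filter]
    apply Finset.sum_congr _ (fun _ _ => rfl)
    ext v
    unfold US.XX
    simp only [Finset.mem_filter]
    tauto
  have cnt : ∀ (P : Fin N → Prop) [DecidablePred P], ∑ l, (if P l then k * M else 0) =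
      (univ.filter fun l => P l).card * (k * M) := by
    intro P _
    rw [← Finset.sum_filter, Finset.sum_const, smul_eq_mul]
  rw [e1, ← e3, e2, ← cnt, ← cnt, ← cnt, ← Finset.sum_add_distrib, ← Finset.sum_add_distrib,
    ← Finset.sum_add_distrib]
  apply Finset.sum_le_sum
  intro l _
  by_cases hg : s.good c1 c2 Δ2 χ l
  · have : ∑ v ∈ s.un l, s.w v = ∑ v ∈ s.un l, (if v ∈ s.XX c1 c2 Δ2 χ then s.w v else 0) := by
      apply Finset.sum_congr rfl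
      intro v hv
      obtain ⟨hv0, hvt⟩ := Finset.mem_filter.1 hv
      have : v ∈ s.XX c1 c2 Δ2 χ := Finset.mem_filter.2 ⟨hv0, by rw [hvt]; exact hg⟩
      rw [if_pos this]
    rw [this]
    exact Nat.le_add_right _ _
  · rcases Finset.eq_empty_or_nonempty (s.un l) with hem | hne
    · rw [hem]
      simp
    · by_cases ha : s.anch (fun y => min (c1 y) (c2 y)) l
      · rw [if_pos ha]
        have := hU5 l
        omega
      · by_cases hl : s.light c1 c2 Δ2 l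
        · have hc : s.conf c1 c2 Δ2 χ l := by
            by_contra hc
            exact hg ⟨hl, hc⟩
          rw [if_pos (show s.light c1 c2 Δ2 l ∧ s.conf c1 c2 Δ2 χ l from ⟨hl, hc⟩)]
          have := hU5 l
          omega
        · rw [if_pos (show (s.un l).Nonempty ∧ ¬ s.anch (fun y => min (c1 y) (c2 y)) l ∧
            ¬ s.light c1 c2 Δ2 l from ⟨hne, ha, hl⟩)]
          have := hU5 l
          omega

/-- The deterministic part. -/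
theorem det (hUSB : S_USB) (hST3 : S_ST3) (hEST : S_EST) (N k M Kp : ℕ)
    (d : Fin N → Fin N → ℕ) (hd : IMet k d) (s : US N) (hs : s.Ok k M Kp) (hsd : s.d = d)
    (c1 c2 : Fin N → ℕ) (Δ2 Q : ℕ) (χ : Fin N → Fin Q) (Z' : Finset (Fin N))
    (hZ' : ∀ x ∈ s.V0, ∀ y ∈ s.V0, 4 * s.cw Z' x y ≤ 5 * s.d x y) (e : ℝ) (he : 0 ≤ e)
    (hlow : ((∑ v ∈ s.V0, s.w v : ℕ) : ℝ) ≤ tspI d)
    (hup : tspI d ≤ 2 * ((∑ v ∈ s.V0, s.w v : ℕ) : ℝ) +
      2 * k * ((univ \ s.V0).card : ℝ) - ((∑ v ∈ Z', s.w v : ℕ) : ℝ) / 10)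
    (hk : 2 * k * ((univ \ s.V0).card : ℝ) ≤ e)
    (hanch : ((univ.filter fun l => s.anch (fun y => min (c1 y) (c2 y)) l).card : ℝ) *
      (k * M) ≤ e / 4)
    (hheavy : ((univ.filter fun l => (s.un l).Nonempty ∧
      ¬ s.anch (fun y => min (c1 y) (c2 y)) l ∧ ¬ s.light c1 c2 Δ2 l).card : ℝ) *
      (k * M) ≤ e / 4)
    (hconf : ((univ.filter fun l => s.light c1 c2 Δ2 l ∧ s.conf c1 c2 Δ2 χ l).card : ℝ) *
      (k * M) ≤ e / 4)
    (hpi : ((∑ l ∈ univ.filter (fun l => ¬ s.anch (fun y => min (c1 y) (c2 y)) l),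
      ∑ v ∈ s.piZ (fun y => min (c1 y) (c2 y)) l, s.w v : ℕ) : ℝ) ≤
      ((∑ v ∈ Z', s.w v : ℕ) : ℝ) + e)
    (hkM : 2 * ((k : ℝ) * M) ≤ e) (x z : ℝ)
    (hx : |x - ((∑ v ∈ s.V0, s.w v : ℕ) : ℝ)| ≤ e)
    (hz : |z - ((∑ v ∈ s.Zf c1 c2 Δ2 χ, s.w v : ℕ) : ℝ)| ≤ e) :
    tspI d ≤ outv e x z ∧ outv e x z ≤ (2 - 1 / 560) * tspI d + 16 * e := by
  obtain ⟨h31, h32⟩ := hST3 N s k M Kp hs c1 c2 Δ2 Q χ
  have h32' := h32 Z' hZ'
  have hest := hEST N k M Kp d hd s hs hsd (s.XX c1 c2 Δ2 χ) (s.Zf c1 c2 Δ2 χ)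
    (Finset.filter_subset _ _) (Finset.filter_subset _ _) h31
  have hw := weights hUSB N k M Kp s hs c1 c2 Δ2 Q χ
  have hwr : ((∑ v ∈ s.V0, s.w v : ℕ) : ℝ) ≤ ((∑ v ∈ s.XX c1 c2 Δ2 χ, s.w v : ℕ) : ℝ) + (
      ((univ.filter fun l => s.anch (fun y => min (c1 y) (c2 y)) l).card : ℝ) * (k * M) +
      ((univ.filter fun l => (s.un l).Nonempty ∧ ¬ s.anch (fun y => min (c1 y) (c2 y)) l ∧
          ¬ s.light c1 c2 Δ2 l).card : ℝ) * (k * M) +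
      ((univ.filter fun l => s.light c1 c2 Δ2 l ∧ s.conf c1 c2 Δ2 χ l).card : ℝ) *
        (k * M)) := by
    exact_mod_cast hw
  have h32r : ((∑ v ∈ s.Zf c1 c2 Δ2 χ, s.w v : ℕ) : ℝ) ≤
      ((∑ l ∈ univ.filter (fun l => ¬ s.anch (fun y => min (c1 y) (c2 y)) l),
        ∑ v ∈ s.piZ (fun y => min (c1 y) (c2 y)) l, s.w v : ℕ) : ℝ) +
        6 * ((∑ v ∈ Z', s.w v : ℕ) : ℝ) := by
    exact_mod_cast h32'
  refine arith (tspI d) ((∑ v ∈ s.V0, s.w v : ℕ) : ℝ)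
    ((∑ v ∈ s.XX c1 c2 Δ2 χ, s.w v : ℕ) : ℝ) ((∑ v ∈ s.Zf c1 c2 Δ2 χ, s.w v : ℕ) : ℝ)
    ((∑ v ∈ Z', s.w v : ℕ) : ℝ) e x z he (Nat.cast_nonneg _) (Nat.cast_nonneg _) hlow
    ?_ hx hz ?_ ?_ ?_
  · linarith
  · linarith
  · linarith
  · linarith

/-- Averages of functions bounded by a nonnegative constant. -/
theorem ex_le {Ω : Type} [Fintype Ω] (f : Ω → ℝ) (c : ℝ) (hc : 0 ≤ c) (h : ∀ ω, f ω ≤ c) :
    ex f ≤ c := by
  unfold ex
  rcases Nat.eq_zero_or_pos (Fintype.card Ω) with h0 | h0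
  · rw [h0]
    simpa using hc
  · have h0' : (0 : ℝ) < Fintype.card Ω := by exact_mod_cast h0
    rw [div_le_iff₀ h0']
    calc ∑ ω, f ω ≤ ∑ _ω : Ω, c := Finset.sum_le_sum (fun ω _ => h ω)
      _ = c * Fintype.card Ω := by
        rw [Finset.sum_const, Finset.card_univ, nsmul_eq_mul, mul_comm]

theorem fibR (hE : S_EXBASIC) {Ω Ω' : Type} [Fintype Ω] [Fintype Ω'] (P : Ω × Ω' → Prop) (p : ℝ)
    (hp : 0 ≤ p) (h : ∀ ω, pr (fun ω' => P (ω, ω')) ≤ p) : pr P ≤ p := by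
  obtain ⟨-, -, -, -, -, hF, -⟩ := hE
  have := hF Ω Ω' (fun ω => if P ω then 1 else 0)
  calc pr P = ex (fun ω : Ω × Ω' => if P ω then (1 : ℝ) else 0) := rfl
    _ = ex (fun ω => ex (fun ω' => if P (ω, ω') then (1 : ℝ) else 0)) := this
    _ ≤ p := ex_le _ p hp h

theorem fibL (hE : S_EXBASIC) {Ω Ω' : Type} [Fintype Ω] [Fintype Ω'] (P : Ω × Ω' → Prop) (p : ℝ)
    (hp : 0 ≤ p) (h : ∀ ω', pr (fun ω => P (ω, ω')) ≤ p) : pr P ≤ p := by
  obtain ⟨-, -, -, -, -, -, hF, -⟩ := hE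
  have := hF Ω Ω' (fun ω => if P ω then 1 else 0)
  calc pr P = ex (fun ω : Ω × Ω' => if P ω then (1 : ℝ) else 0) := rfl
    _ = ex (fun ω' => ex (fun ω => if P (ω, ω') then (1 : ℝ) else 0)) := this
    _ ≤ p := ex_le _ p hp h

theorem pr_or (hE : S_EXBASIC) {Ω : Type} [Fintype Ω] (P Q : Ω → Prop) (x y : ℝ)
    (h1 : pr P ≤ x) (h2 : pr Q ≤ y) : pr (fun ω => P ω ∨ Q ω) ≤ x + y := by
  obtain ⟨-, -, -, -, -, -, -, -, hO, -⟩ := hE
  exact le_trans (hO Ω P Q) (add_le_add h1 h2)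

theorem pr_mono (hE : S_EXBASIC) {Ω : Type} [Fintype Ω] (P Q : Ω → Prop) (x : ℝ)
    (h : ∀ ω, P ω → Q ω) (h1 : pr Q ≤ x) : pr P ≤ x := by
  obtain ⟨-, -, -, -, -, -, -, -, -, hM, -⟩ := hE
  exact le_trans (hM Ω P Q h) h1

theorem pr_false {Ω : Type} [Fintype Ω] (P : Ω → Prop) (h : ∀ ω, ¬ P ω) : pr P ≤ 0 := by
  unfold pr
  apply ex_le _ 0 le_rfl
  intro ω
  rw [if_neg (h ω)]

theorem expsmall (c p : ℝ) (hc : 0 < c) (hp : 0 < p) :
    ∃ N0 : ℕ, ∀ N : ℕ, N0 ≤ N → Real.exp (-(c * N)) ≤ p := by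
  obtain ⟨N0, hN0⟩ := exists_nat_ge (-Real.log p / c)
  refine ⟨N0, fun N hN => ?_⟩
  rw [← Real.le_log_iff_exp_le hp]
  have h1 : -Real.log p / c ≤ N := le_trans hN0 (by exact_mod_cast hN)
  rw [div_le_iff₀ hc] at h1
  linarith

/-- Concentration with a small probability. -/
theorem conc (hC : S_CONC) (q : ℕ) (hq : 1 ≤ q) (F ε p : ℝ) (hF : 0 < F) (hε : 0 < ε)
    (hεF : ε ≤ F) (hp : 0 < p) : ∃ N0 : ℕ, ∀ N : ℕ, N0 ≤ N → ∀ f : Fin N → ℝ,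
      (∀ v, |f v| ≤ F) →
      pr (fun ω : Fin N → Fin q => (∑ v, f v) / q + ε * N ≤ ∑ v ∈ zs ω, f v) ≤ p := by
  obtain ⟨N0, hN0⟩ := expsmall (ε ^ 2 / (4 * F ^ 2)) p (by positivity) hp
  refine ⟨N0, fun N hN f hf => ?_⟩
  refine le_trans (hC N q hq f F ε hF hf hε hεF) ?_
  refine le_trans (le_of_eq ?_) (hN0 N hN)
  congr 1
  ring

/-- Size of a random set. -/
theorem size (hE : S_EXBASIC) (hC : S_CONC) (q : ℕ) (hq : 1 ≤ q) (p : ℝ) (hp : 0 < p) :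
    ∃ N0 : ℕ, ∀ N : ℕ, N0 ≤ N →
      pr (fun ω : Fin N → Fin q => ¬ (((zs ω).card : ℝ) ≤ 2 * N / q)) ≤ p := by
  have hq' : (1 : ℝ) ≤ q := by exact_mod_cast hq
  have hq0 : (0 : ℝ) < q := by linarith
  obtain ⟨N0, hN0⟩ := conc hC q hq 1 (1 / q) p one_pos (by positivity)
    (by rw [div_le_one hq0]; exact hq') hp
  refine ⟨N0, fun N hN => ?_⟩
  refine pr_mono hE _ _ p ?_ (hN0 N hN (fun _ => 1) (fun v => by simp))
  intro ω hω
  push Not at hω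
  have h1 : (∑ _v : Fin N, (1 : ℝ)) = N := by simp
  have h2 : ∑ _v ∈ zs ω, (1 : ℝ) = ((zs ω).card : ℝ) := by simp
  rw [h1, h2]
  refine le_trans (le_of_eq ?_) hω.le
  ring

/-- Estimates of sums by a random sample. -/
theorem samp (hE : S_EXBASIC) (hC : S_CONC) (g : ℕ) (hg : 1 ≤ g) (k : ℕ) (e p : ℝ) (he : 0 < e)
    (hp : 0 < p) : ∃ N0 : ℕ, ∀ N : ℕ, N0 ≤ N → ∀ f : Fin N → ℝ, (∀ v, 0 ≤ f v ∧ f v ≤ k) →
      pr (fun ω : Fin N → Fin g => ¬ (|(g : ℝ) * ∑ v ∈ zs ω, f v - ∑ v, f v| ≤ e * N)) ≤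
        p + p := by
  have hg' : (1 : ℝ) ≤ g := by exact_mod_cast hg
  have hg0 : (0 : ℝ) < g := by linarith
  obtain ⟨N0, hN0⟩ := conc hC g hg (k + 1 + e) (e / g) p (by positivity) (by positivity)
    (by
      have : e / g ≤ e := div_le_self he.le hg'
      have hk : (0 : ℝ) ≤ k := Nat.cast_nonneg k
      linarith) hp
  refine ⟨N0, fun N hN f hf => ?_⟩
  have hk : (0 : ℝ) ≤ k := Nat.cast_nonneg k
  have a1 := hN0 N hN f (fun v => by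
    rw [abs_of_nonneg (hf v).1]
    linarith [(hf v).2])
  have a2 := hN0 N hN (fun v => - f v) (fun v => by
    rw [abs_neg, abs_of_nonneg (hf v).1]
    linarith [(hf v).2])
  refine pr_mono hE _ _ (p + p) ?_ (pr_or hE _ _ p p a1 a2)
  intro ω hω
  rw [abs_le, not_and_or] at hω
  have key : e / g * N = (e * N) / g := by ring
  rcases hω with h | h
  · right
    push Not at h
    rw [Finset.sum_neg_distrib, Finset.sum_neg_distrib, key, ← add_div, div_le_iff₀ hg0]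
    linarith
  · left
    push Not at h
    rw [key, ← add_div, div_le_iff₀ hg0]
    linarith

theorem sum_ind {N : ℕ} (w : Fin N → ℕ) (V : Finset (Fin N)) :
    ∑ v, (if v ∈ V then (w v : ℝ) else 0) = ((∑ v ∈ V, w v : ℕ) : ℝ) := by
  rw [Finset.sum_ite_mem, Finset.univ_inter]
  push_cast
  rfl

/-- The event of a bad estimate. -/
def BadE {N g : ℕ} (s : US N) (Z : Finset (Fin N)) (e : ℝ) (ω : Fin N → Fin g) : Prop :=
  ¬ (|zh s Z ω - ((∑ v ∈ Z, s.w v : ℕ) : ℝ)| ≤ e * N)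

theorem samp2 (hE : S_EXBASIC) (hC : S_CONC) (g : ℕ) (hg : 1 ≤ g) (k : ℕ) (e p : ℝ) (he : 0 < e)
    (hp : 0 < p) : ∃ N0 : ℕ, ∀ N : ℕ, N0 ≤ N → ∀ (s : US N) (Z : Finset (Fin N)),
      (∀ v, s.w v ≤ k) → pr (fun ω : Fin N → Fin g => BadE s Z e ω) ≤ p + p := by
  obtain ⟨N0, hN0⟩ := samp hE hC g hg k e p he hp
  refine ⟨N0, fun N hN s Z hw => ?_⟩
  have h := hN0 N hN (fun v => if v ∈ Z then (s.w v : ℝ) else 0) (fun v => by
    have hwk : (s.w v : ℝ) ≤ k := by exact_mod_cast hw v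
    split_ifs
    · exact ⟨Nat.cast_nonneg _, hwk⟩
    · exact ⟨le_rfl, Nat.cast_nonneg _⟩)
  rw [sum_ind] at h
  exact h

/-- The event of the dense stage. -/
def Ev2 {N a t b : ℕ} (s : US N) (Kp : ℕ) (ε C : ℝ) (Z' : Finset (Fin N)) (ω : Om2 N a t b) :
    Prop :=
  ((univ.filter fun l => s.anch (fun y => min (s.k1 Kp (zs ω.1) (zs ω.2.1) y)
          (s.k2 Kp (zs ω.1) (zs ω.2.1) (zs ω.2.2) y)) l).card : ℝ) ≤ ε * N ∧
        ((∑ l ∈ univ.filter (fun l => ¬ s.anch (fun y => min (s.k1 Kp (zs ω.1) (zs ω.2.1) y)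
          (s.k2 Kp (zs ω.1) (zs ω.2.1) (zs ω.2.2) y)) l),
          ∑ v ∈ s.piZ (fun y => min (s.k1 Kp (zs ω.1) (zs ω.2.1) y)
          (s.k2 Kp (zs ω.1) (zs ω.2.1) (zs ω.2.2) y)) l, s.w v : ℕ) : ℝ)
          ≤ ((∑ v ∈ Z', s.w v : ℕ) : ℝ) + ε * N ∧
        ∑ y, ((Cd s.d (s.k1 Kp (zs ω.1) (zs ω.2.1))
          (s.k2 Kp (zs ω.1) (zs ω.2.1) (zs ω.2.2)) y).card : ℝ) ≤ C * N

theorem t_CORR : S_EXBASIC → S_EXSUM → S_CONC → S_SYS → S_RB → S_USB → S_ST2 → S_ST3 → S_COL →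
    S_EST → S_CORR := by
  intro hE _ hC hSYS hRB hUSB hST2 hST3 hCOL hEST k qmin ε pf hε hpf
  obtain ⟨e', he'⟩ : ∃ e' : ℝ, e' = ε / 16 := ⟨_, rfl⟩
  obtain ⟨p, hp'⟩ : ∃ p : ℝ, p = pf / 16 := ⟨_, rfl⟩
  have he'0 : 0 < e' := by rw [he']; positivity
  have hp0 : 0 < p := by rw [hp']; positivity
  rw [← he']
  obtain ⟨q, L, Δ, NRB, hq, hqm, hRB'⟩ := hRB qmin (e' / (2 * k + 1)) p (by positivity) hp0
  refine ⟨q, L, Δ, hq, hqm, ?_⟩
  intro a bmin ha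
  obtain ⟨W, hW⟩ : ∃ W : ℝ, W = (k : ℝ) * (((Δ + 1) ^ L : ℕ) : ℝ) + 1 := ⟨_, rfl⟩
  have hkM0 : (0 : ℝ) ≤ (k : ℝ) * (((Δ + 1) ^ L : ℕ) : ℝ) := by positivity
  have hW1 : 1 ≤ W := by rw [hW]; linarith
  have hW0 : 0 < W := by linarith
  have hkMW : (k : ℝ) * (((Δ + 1) ^ L : ℕ) : ℝ) ≤ W := by rw [hW]; linarith
  obtain ⟨t, b, C, NST, ht, hb, hbm, hC0, hST⟩ := hST2 k ((Δ + 1) ^ L) (k * L) a bmin
    (e' / (4 * W)) p ha (by positivity) hp0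
  obtain ⟨Δ2, hΔ2⟩ := exists_nat_ge (4 * W * C / e')
  obtain ⟨Q0, hQ0⟩ := exists_nat_ge (4 * W * ((Δ2 : ℝ) + 1) ^ 2 / (e' * p))
  refine ⟨t, b, Δ2, Q0 + 1, ht, hb, hbm, by omega, ?_⟩
  intro g hg
  obtain ⟨N4, h4⟩ := size hE hC q hq p hp0
  obtain ⟨N5, h5⟩ := size hE hC a ha p hp0
  obtain ⟨N6, h6⟩ := size hE hC b hb p hp0
  obtain ⟨N7, h7⟩ := size hE hC g hg p hp0
  obtain ⟨N8, h8⟩ := samp2 hE hC g hg k e' p he'0 hp0
  obtain ⟨N9, h9⟩ := exists_nat_ge (2 * ((k : ℝ) * (((Δ + 1) ^ L : ℕ) : ℝ)) / e')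
  refine ⟨NRB + NST + N4 + N5 + N6 + N7 + N8 + N9 + 1, fun N hN d hd => ?_⟩
  have hNpos : (0 : ℝ) < N := by
    have : 0 < N := by omega
    exact_mod_cast this
  have hex : ∀ R : Finset (Fin N), ∃ Z' : Finset (Fin N), R.Nonempty →
      (Z' ⊆ (usys L Δ R d).V0 ∧
    (∀ x ∈ (usys L Δ R d).V0, ∀ y ∈ (usys L Δ R d).V0,
      4 * (usys L Δ R d).cw Z' x y ≤ 5 * d x y) ∧
    tspI d ≤ 2 * ((∑ v ∈ (usys L Δ R d).V0, (usys L Δ R d).w v : ℕ) : ℝ) +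
      2 * k * ((univ \ (usys L Δ R d).V0).card : ℝ) -
      ((∑ v ∈ Z', (usys L Δ R d).w v : ℕ) : ℝ) / 10) := by
    intro R
    by_cases hR : R.Nonempty
    · obtain ⟨-, -, Z', hZ'⟩ := hSYS N k L Δ d R hd hR
      exact ⟨Z', fun _ => hZ'⟩
    · exact ⟨∅, fun h => absurd h hR⟩
  choose Zp hZp using hex
  have hok : ∀ R : Finset (Fin N), R.Nonempty →
      (usys L Δ R d).Ok k ((Δ + 1) ^ L) (k * L) := fun R hR => (hSYS N k L Δ d R hd hR).1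
  have hlow : ∀ R : Finset (Fin N), R.Nonempty →
      ((∑ v ∈ (usys L Δ R d).V0, (usys L Δ R d).w v : ℕ) : ℝ) ≤ tspI d :=
    fun R hR => (hSYS N k L Δ d R hd hR).2.1
  obtain ⟨θ, hθ⟩ : ∃ θ : ℝ, θ = e' * N / (4 * W) := ⟨_, rfl⟩
  have hθ0 : 0 < θ := by rw [hθ]; positivity
  -- the bad events
  have b1 : pr (fun ω : Om N q a t b (Q0 + 1) g => ¬ ((zs ω.1).Nonempty ∧
      ((univ \ V0 (key d) (zs ω.1) L Δ).card : ℝ) ≤ e' / (2 * k + 1) * N)) ≤ p :=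
    fibL hE _ p hp0.le (fun _ => hRB' N (by omega) k d hd)
  have b2 : pr (fun ω : Om N q a t b (Q0 + 1) g => (zs ω.1).Nonempty ∧
      ¬ Ev2 (usys L Δ (zs ω.1) d) (k * L) (e' / (4 * W)) C (Zp (zs ω.1)) ω.2.1) ≤ p := by
    refine fibR hE _ p hp0.le (fun ω1 => fibL hE _ p hp0.le (fun _ => ?_))
    by_cases hR : (zs ω1).Nonempty
    · refine pr_mono hE _ _ p ?_ (hST N (by omega) (usys L Δ (zs ω1) d) (hok _ hR)
        (Zp (zs ω1)) (hZp _ hR).1 (hZp _ hR).2.1)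
      intro ω hω
      exact hω.2
    · exact le_trans (pr_false _ (fun ω hω => hR hω.1)) hp0.le
  have b3 : pr (fun ω : Om N q a t b (Q0 + 1) g => (zs ω.1).Nonempty ∧
      θ ≤ ((univ.filter fun l => (usys L Δ (zs ω.1) d).light (g1 k L Δ ω d) (g2 k L Δ ω d) Δ2 l ∧
        (usys L Δ (zs ω.1) d).conf (g1 k L Δ ω d) (g2 k L Δ ω d) Δ2 ω.2.2.1 l).card : ℝ)) ≤
        p := by
    refine fibR hE _ p hp0.le (fun ω1 => fibR hE _ p hp0.le (fun ω2 =>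
      fibL hE _ p hp0.le (fun ω4 => ?_)))
    by_cases hR : (zs ω1).Nonempty
    · obtain ⟨c1, hc1⟩ : ∃ c1, c1 = (usys L Δ (zs ω1) d).k1 (k * L) (zs ω2.1) (zs ω2.2.1) :=
        ⟨_, rfl⟩
      obtain ⟨c2, hc2⟩ : ∃ c2, c2 = (usys L Δ (zs ω1) d).k2 (k * L) (zs ω2.1) (zs ω2.2.1)
        (zs ω2.2.2) := ⟨_, rfl⟩
      have hm := (hCOL N (usys L Δ (zs ω1) d) k ((Δ + 1) ^ L) (k * L) (hok _ hR) c1 c2 Δ2
        (Q0 + 1) (by omega)).1
      have hmk : pr (fun χ : Fin N → Fin (Q0 + 1) => θ ≤ ((univ.filter fun l =>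
          (usys L Δ (zs ω1) d).light c1 c2 Δ2 l ∧
          (usys L Δ (zs ω1) d).conf c1 c2 Δ2 χ l).card : ℝ)) ≤ p := by
        obtain ⟨-, -, -, -, -, -, -, hMk, -⟩ := hE
        refine le_trans (hMk _ _ θ hθ0 (fun _ => Nat.cast_nonneg _)) ?_
        rw [div_le_iff₀ hθ0]
        refine le_trans hm ?_
        have hQpos : (0 : ℝ) < ((Q0 + 1 : ℕ) : ℝ) := by positivity
        rw [div_le_iff₀ hQpos, hθ]
        rw [div_le_iff₀ (by positivity)] at hQ0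
        have hQ1 : 4 * W * ((Δ2 : ℝ) + 1) ^ 2 ≤ ((Q0 + 1 : ℕ) : ℝ) * (e' * p) := by
          refine le_trans hQ0 ?_
          apply mul_le_mul_of_nonneg_right _ (by positivity)
          push_cast
          linarith
        have e1 : p * (e' * N / (4 * W)) * ((Q0 + 1 : ℕ) : ℝ) =
            (((Q0 + 1 : ℕ) : ℝ) * (e' * p)) * (N / (4 * W)) := by ring
        rw [e1]
        calc (N : ℝ) * ((Δ2 : ℝ) + 1) ^ 2 = (4 * W * ((Δ2 : ℝ) + 1) ^ 2) * (N / (4 * W)) := by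
              field_simp
          _ ≤ _ := mul_le_mul_of_nonneg_right hQ1 (by positivity)
      refine pr_mono hE _ _ p ?_ hmk
      intro χ hχ
      rw [hc1, hc2]
      exact hχ.2
    · exact le_trans (pr_false _ (fun ω hω => hR hω.1)) hp0.le
  have b4 : pr (fun ω : Om N q a t b (Q0 + 1) g => ¬ (((zs ω.1).card : ℝ) ≤ 2 * N / q)) ≤ p :=
    fibL hE _ p hp0.le (fun _ => h4 N (by omega))
  have b5 : pr (fun ω : Om N q a t b (Q0 + 1) g => ¬ (((zs ω.2.1.1).card : ℝ) ≤ 2 * N / a)) ≤ p :=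
    fibR hE _ p hp0.le (fun _ => fibL hE _ p hp0.le (fun _ => fibL hE _ p hp0.le
      (fun _ => h5 N (by omega))))
  have b6 : pr (fun ω : Om N q a t b (Q0 + 1) g =>
      ¬ (((zs ω.2.1.2.2).card : ℝ) ≤ 2 * N / b)) ≤ p :=
    fibR hE _ p hp0.le (fun _ => fibL hE _ p hp0.le (fun _ => fibR hE _ p hp0.le
      (fun _ => fibR hE _ p hp0.le (fun _ => h6 N (by omega)))))
  have b7 : pr (fun ω : Om N q a t b (Q0 + 1) g =>
      ¬ (((zs ω.2.2.2).card : ℝ) ≤ 2 * N / g)) ≤ p :=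
    fibR hE _ p hp0.le (fun _ => fibR hE _ p hp0.le (fun _ => fibR hE _ p hp0.le
      (fun _ => h7 N (by omega))))
  have hwk : ∀ (R : Finset (Fin N)) (v : Fin N), (usys L Δ R d).w v ≤ k :=
    fun R v => hd.bd _ _
  have b8 : pr (fun ω : Om N q a t b (Q0 + 1) g =>
      BadE (usys L Δ (zs ω.1) d) (usys L Δ (zs ω.1) d).V0 e' ω.2.2.2) ≤ p + p := by
    refine fibR hE _ _ (by positivity) (fun ω1 => ?_)
    refine fibR hE _ _ (by positivity) (fun ω2 => ?_)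
    refine fibR hE _ _ (by positivity) (fun ω3 => ?_)
    exact h8 N (by omega) (usys L Δ (zs ω1) d) (usys L Δ (zs ω1) d).V0 (hwk _)
  have b9 : pr (fun ω : Om N q a t b (Q0 + 1) g => BadE (usys L Δ (zs ω.1) d)
      ((usys L Δ (zs ω.1) d).Zf (g1 k L Δ ω d) (g2 k L Δ ω d) Δ2 ω.2.2.1) e' ω.2.2.2) ≤
        p + p := by
    refine fibR hE _ _ (by positivity) (fun ω1 => ?_)
    refine fibR hE _ _ (by positivity) (fun ω2 => ?_)
    refine fibR hE _ _ (by positivity) (fun ω3 => ?_)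
    exact h8 N (by omega) (usys L Δ (zs ω1) d)
      ((usys L Δ (zs ω1) d).Zf ((usys L Δ (zs ω1) d).k1 (k * L) (zs ω2.1) (zs ω2.2.1))
        ((usys L Δ (zs ω1) d).k2 (k * L) (zs ω2.1) (zs ω2.2.1) (zs ω2.2.2)) Δ2 ω3) (hwk _)
  have ball := pr_or hE _ _ _ _ b1 (pr_or hE _ _ _ _ b2 (pr_or hE _ _ _ _ b3
    (pr_or hE _ _ _ _ b4 (pr_or hE _ _ _ _ b5 (pr_or hE _ _ _ _ b6 (pr_or hE _ _ _ _ b7
    (pr_or hE _ _ _ _ b8 b9)))))))
  refine le_trans (pr_mono hE _ _ _ ?_ ball) (by rw [hp'] at *; linarith)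
  intro ω hbad
  by_contra hall
  apply hbad
  rw [not_or, not_or, not_or, not_or, not_or, not_or, not_or, not_or] at hall
  obtain ⟨a1, a2, a3, a4, a5, a6, a7, a8, a9⟩ := hall
  obtain ⟨hR, a1⟩ := not_not.1 a1
  have a2 := not_not.1 (not_and.1 a2 hR)
  have a3 := not_le.1 (not_and.1 a3 hR)
  have a4 := not_not.1 a4
  have a5 := not_not.1 a5
  have a6 := not_not.1 a6
  have a7 := not_not.1 a7
  obtain ⟨a21, a22, a23⟩ := a2
  have a8' := not_not.1 a8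
  have a9' := not_not.1 a9
  have hsmall : small ω := ⟨hR, a4, a5, a6, a7⟩
  have hheavy0 := (hCOL N (usys L Δ (zs ω.1) d) k ((Δ + 1) ^ L) (k * L) (hok _ hR)
    (g1 k L Δ ω d) (g2 k L Δ ω d) Δ2 (Q0 + 1) (by omega)).2
  have hcardkM : ∀ x y : ℝ, 0 ≤ x → x * W ≤ y → x * ((k : ℝ) * (((Δ + 1) ^ L : ℕ) : ℝ)) ≤ y := by
    intro x y hx hxy
    exact le_trans (mul_le_mul_of_nonneg_left hkMW hx) hxy
  have hdet := det hUSB hST3 hEST N k ((Δ + 1) ^ L) (k * L) d hd (usys L Δ (zs ω.1) d)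
    (hok _ hR) rfl (g1 k L Δ ω d) (g2 k L Δ ω d) Δ2 (Q0 + 1) ω.2.2.1 (Zp (zs ω.1))
    (hZp _ hR).2.1 (e' * N) (by positivity) (hlow _ hR) (hZp _ hR).2.2
    (by
      have hk0 : (0 : ℝ) ≤ 2 * k := by positivity
      have h1 := mul_le_mul_of_nonneg_left a1 hk0
      refine le_trans h1 ?_
      have e1 : 2 * (k : ℝ) * (e' / (2 * k + 1) * N) = (2 * k / (2 * k + 1)) * (e' * N) := by
        field_simp
      rw [e1]
      have h2 : 2 * (k : ℝ) / (2 * k + 1) ≤ 1 := by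
        rw [div_le_one (by positivity)]
        linarith
      have h3 : 0 ≤ e' * N := by positivity
      calc (2 * (k : ℝ) / (2 * k + 1)) * (e' * N) ≤ 1 * (e' * N) :=
            mul_le_mul_of_nonneg_right h2 h3
        _ = e' * N := one_mul _)
    (hcardkM _ _ (Nat.cast_nonneg _) (by
      refine le_trans (mul_le_mul_of_nonneg_right a21 hW0.le) (le_of_eq ?_)
      field_simp))
    (hcardkM _ _ (Nat.cast_nonneg _) (by
      rw [div_le_iff₀ he'0] at hΔ2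
      have h1 := le_trans hheavy0 a23
      generalize (((univ.filter fun l => ((usys L Δ (zs ω.1) d).un l).Nonempty ∧
        ¬ (usys L Δ (zs ω.1) d).anch (fun y => min (g1 k L Δ ω d y) (g2 k L Δ ω d y)) l ∧
        ¬ (usys L Δ (zs ω.1) d).light (g1 k L Δ ω d) (g2 k L Δ ω d) Δ2 l).card : ℕ) : ℝ) = X
        at h1 ⊢
      have hX : 0 ≤ X ∨ X < 0 := le_or_gt 0 X
      rcases hX with hX | hX
      · have h2 : X * (4 * W * C) ≤ X * (Δ2 * e') := mul_le_mul_of_nonneg_left hΔ2 hX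
        have h3 : X * Δ2 * e' ≤ C * N * e' := mul_le_mul_of_nonneg_right h1 he'0.le
        have h4 : (X * W * 4) * C ≤ (e' * N) * C := by nlinarith
        have h5 : X * W * 4 ≤ e' * N := le_of_mul_le_mul_right h4 hC0
        linarith
      · have : X * W ≤ 0 := mul_nonpos_of_nonpos_of_nonneg hX.le hW0.le
        have h3 : 0 ≤ e' * N := by positivity
        linarith))
    (hcardkM _ _ (Nat.cast_nonneg _) (by
      refine le_trans (mul_le_mul_of_nonneg_right a3.le hW0.le) (le_of_eq ?_)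
      rw [hθ]
      field_simp))
    (by
      refine le_trans a22 ?_
      have h1 : e' / (4 * W) * N ≤ e' * N := by
        apply mul_le_mul_of_nonneg_right _ hNpos.le
        apply div_le_self he'0.le
        linarith
      have := add_le_add_right h1 (((∑ v ∈ Zp (zs ω.1), (usys L Δ (zs ω.1) d).w v : ℕ) : ℝ))
      linarith)
    (by
      rw [div_le_iff₀ he'0] at h9
      refine le_trans h9 ?_
      rw [mul_comm]
      apply mul_le_mul_of_nonneg_left _ he'0.le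
      have : N9 ≤ N := by omega
      exact_mod_cast this)
    (wh (usys L Δ (zs ω.1) d) ω.2.2.2)
    (zh (usys L Δ (zs ω.1) d)
        ((usys L Δ (zs ω.1) d).Zf (g1 k L Δ ω d) (g2 k L Δ ω d) Δ2 ω.2.2.1) ω.2.2.2)
    a8' a9'
  have hout : outB k L Δ Δ2 (e' * N) ω d = outv (e' * N) (wh (usys L Δ (zs ω.1) d) ω.2.2.2)
      (zh (usys L Δ (zs ω.1) d)
        ((usys L Δ (zs ω.1) d).Zf (g1 k L Δ ω d) (g2 k L Δ ω d) Δ2 ω.2.2.1) ω.2.2.2) := by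
    unfold outB
    rw [if_pos hsmall]
  rw [hout]
  refine ⟨hdet.1, le_trans hdet.2 (le_of_eq ?_)⟩
  rw [he']
  ring

end Pool.Agent.H17.T.CORR
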