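import Pool.Agent.H699.T.Unit

/-!
# Deterministic facts of the dense stage
-/

set_option autoImplicit false

namespace Pool.Agent.H17.T.T2DE

open Finset Classical
open Pool.Agent.H699.T

theorem t_2D : S_USB → S_CAPS → S_2D := by
  intro hUSB hCAPS N s k M Kp hs A A1 B l hlA hlA1 hexc
  obtain ⟨hU1, hU2, -, hU4, -, hU6, -, -⟩ := hUSB N s k M Kp hs
  obtain ⟨-, -, hcross, -⟩ := hU1 A
  obtain ⟨hC1, hC2⟩ := hCAPS N Kp s.d
  have hmemun : ∀ y, y ∈ s.un l → y ∈ s.V0 ∧ s.top y = l := by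
    intro y hy
    exact Finset.mem_filter.1 hy
  have hun : ∀ y ∈ s.un l, y ∈ s.VA A := by
    intro y hy
    obtain ⟨hy0, hyt⟩ := hmemun y hy
    exact Finset.mem_filter.2 ⟨hy0, by rw [hyt]; exact hlA⟩
  have h1 : ∀ y ∈ s.un l, s.pt (s.ZA A) y < c1 Kp s.d (s.hA A A1 (s.ZA A)) y := by
    intro y hy
    obtain ⟨hy0, hyt⟩ := hmemun y hy
    refine ((hC1 (s.hA A A1 (s.ZA A)) y).2 (s.pt (s.ZA A) y) (hU6 _ y hy0)).2 ?_
    intro x hx
    by_cases hc : x ∈ s.V0 ∧ s.top x ∈ A ∧ s.top x ∈ A1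
    · have hval : s.hA A A1 (s.ZA A) x = s.pt (s.ZA A) x + 1 := by
        unfold US.hA
        rw [if_pos hc]
      rw [hval]
      have hxA : x ∈ s.VA A := Finset.mem_filter.2 ⟨hc.1, hc.2.1⟩
      have hne : s.top x ≠ s.top y := by
        intro h
        apply hlA1
        rw [← hyt, ← h]
        exact hc.2.2
      have := hcross x hxA y (hun y hy) hne
      simpa using this
    · exfalso
      apply hx
      unfold US.hA
      rw [if_neg hc]
  have h2 : ∀ y ∈ s.un l, s.pt (s.ZA A) y <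
      c2 Kp s.d B (c1 Kp s.d (s.hA A A1 (s.ZA A))) y := by
    intro y hy
    obtain ⟨hy0, hyt⟩ := hmemun y hy
    refine ((hC2 B (c1 Kp s.d (s.hA A A1 (s.ZA A))) y).2 (s.pt (s.ZA A) y)
      (hU6 _ y hy0)).2 ?_
    intro x hxB hcx
    by_contra hlt
    exact hexc ⟨x, hxB, hcx, y, hy, not_le.1 hlt⟩
  have h3 : ∀ y ∈ s.un l, s.pt (s.ZA A) y + 1 ≤
      min (c1 Kp s.d (s.hA A A1 (s.ZA A)) y)
        (c2 Kp s.d B (c1 Kp s.d (s.hA A A1 (s.ZA A))) y) := by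
    intro y hy
    exact le_min (h1 y hy) (h2 y hy)
  have hna : ¬ s.anch (fun y => min (c1 Kp s.d (s.hA A A1 (s.ZA A)) y)
      (c2 Kp s.d B (c1 Kp s.d (s.hA A A1 (s.ZA A))) y)) l := by
    rintro ⟨y, hy, h0⟩
    have h := h3 y hy
    have h0' : min (c1 Kp s.d (s.hA A A1 (s.ZA A)) y)
      (c2 Kp s.d B (c1 Kp s.d (s.hA A A1 (s.ZA A))) y) = 0 := h0
    rw [h0'] at h
    omega
  refine ⟨hna, ?_⟩
  refine (hU2 _ l hna).2.2 (s.ZA A ∩ s.un l) Finset.inter_subset_right ?_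
  intro x hx
  have hpt : s.pt (s.ZA A ∩ s.un l) x = s.pt (s.ZA A) x := by
    unfold US.pt
    apply Finset.sum_congr _ (fun _ _ => rfl)
    ext v
    simp only [Finset.mem_sdiff, Finset.mem_inter, not_and]
    constructor
    · rintro ⟨hv, hvn⟩
      exact ⟨hv, fun hvZ => hvn hvZ (hU4 l x hx hv)⟩
    · rintro ⟨hv, hvn⟩
      exact ⟨hv, fun hvZ => absurd hvZ hvn⟩
  rw [hpt]
  exact h3 x hx

theorem t_2E : S_USB → S_2E := by
  intro hUSB N s k M Kp hs A Z' hZ'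
  obtain ⟨hU1, -, -, hU4, -, -, hU7, hU8⟩ := hUSB N s k M Kp hs
  obtain ⟨-, -, -, hmin⟩ := hU1 A
  have hch : ∀ x ∈ s.VA A, s.ch x ⊆ s.VA A := by
    intro x hx v hv
    obtain ⟨hx0, hxA⟩ := Finset.mem_filter.1 hx
    have hxu : x ∈ s.un (s.top x) := Finset.mem_filter.2 ⟨hx0, rfl⟩
    have hvu := hU4 (s.top x) x hxu hv
    obtain ⟨hv0, hvt⟩ := Finset.mem_filter.1 hvu
    exact Finset.mem_filter.2 ⟨hv0, by rw [hvt]; exact hxA⟩
  have hpt : ∀ x ∈ s.VA A, s.pt (Z' ∩ s.VA A) x = s.pt Z' x := by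
    intro x hx
    unfold US.pt
    apply Finset.sum_congr _ (fun _ _ => rfl)
    ext v
    simp only [Finset.mem_sdiff, Finset.mem_inter, not_and]
    constructor
    · rintro ⟨hv, hvn⟩
      exact ⟨hv, fun hvZ => hvn hvZ (hch x hx hv)⟩
    · rintro ⟨hv, hvn⟩
      exact ⟨hv, fun hvZ => absurd hvZ hvn⟩
  have hle := hmin (Z' ∩ s.VA A) Finset.inter_subset_right (by
    intro x hx y hy hne
    rw [hpt x hx, hpt y hy]
    have hx0 := (Finset.mem_filter.1 hx).1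
    have hy0 := (Finset.mem_filter.1 hy).1
    have h1 := hZ' x hx0 y hy0
    rw [hU7 Z' x y hx0 hy0 hne] at h1
    omega)
  refine le_trans hle (le_of_eq ?_)
  have hpart := hU8 A (fun v => if v ∈ Z' then s.w v else 0)
  have key : ∀ W : Finset (Fin N), ∑ v ∈ Z' ∩ W, s.w v = ∑ v ∈ W, (if v ∈ Z' then s.w v else 0) := by
    intro W
    rw [← Finset.sum_filter]
    apply Finset.sum_congr _ (fun _ _ => rfl)
    ext v
    simp only [Finset.mem_inter, Finset.mem_filter]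
    tauto
  rw [key, hpart]
  exact Finset.sum_congr rfl (fun l _ => (key _).symm)

end Pool.Agent.H17.T.T2DE
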